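import Pool.Agent.K1H14.SD.Stm

set_option autoImplicit false

/-! Project SD, piece KPOS. -/

namespace Pool.Agent.K1H75.SD

open Pool.Agent.K1H14.SD

universe u

theorem pos_sum {ι : Type} (s : Finset ι) (f : ι → ℂ) (hf : ∀ i ∈ s, f i = 0 ∨ Pos (f i))
    (h : ∃ i ∈ s, Pos (f i)) : Pos (∑ i ∈ s, f i) := by
  classical
  have h1 : ∀ i ∈ s, ((f i).re : ℂ) = f i ∧ 0 ≤ (f i).re := by
    intro i hi
    rcases hf i hi with h0 | ⟨r, hr, h0⟩
    · rw [h0]
      simp
    · rw [h0]
      simp [hr.le]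
  obtain ⟨i, hi, r, hr, hir⟩ := h
  refine ⟨∑ i ∈ s, (f i).re, ?_, ?_⟩
  · refine Finset.sum_pos' (fun j hj => (h1 j hj).2) ⟨i, hi, ?_⟩
    rw [hir]
    simpa using hr
  · push_cast
    exact (Finset.sum_congr rfl fun j hj => (h1 j hj).1).symm

theorem pos_conj {z : ℂ} (h : Pos z) : Pos ((starRingEnd ℂ) z) := by
  obtain ⟨r, hr, h⟩ := h
  exact ⟨r, hr, by rw [h, Complex.conj_ofReal]⟩

theorem st_one {A : Type u} [Ring A] [Algebra ℂ A] {d : ℕ} {M : Finset (Fin d) → A}
    {st : A →ₗ[ℂ] A} (hE : EvenCl M st) : st 1 = 1 := by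
  have h := hE.st_M ∅ (by simp)
  rw [hE.one] at h
  simpa using h

theorem t_KPOS (h2 : S_AVG.{u}) (h3 : S_PRM.{u}) (h4 : S_HER.{u}) : S_KPOS.{u} := by
  intro A _ _ d M st tr c k k' hE hT hC hk hk' hpos
  obtain ⟨hcc, htc, -, -⟩ := h4 M st tr c hE hT hC
  obtain ⟨hA, hCM⟩ := hC
  have hstc : ∀ x, st (c x) = c (st x) := fun x => (hA.st x).symm
  have hzero : c 0 = 0 := by
    have h := hA.smul 0 0
    rw [zero_smul] at h
    rw [h]
    simp
  -- first claim
  have key : ∀ v : A, v ≠ 0 → Pos ((2 : ℂ) ^ (d - 1) * tr k' * tr (st (c v) * v * st k')) := by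
    intro v hv
    have hterm : ∀ N ∈ evs d, tr ((st (c v) * M N) * k' * st (c (st (c v) * M N)) * st k') =
        tr (st (c v) * (M N * k' * st (M N)) * v * st k') := by
      intro N hN
      have hNe : Even N.card := (Finset.mem_filter.1 hN).2
      rw [hA.mul, hCM N hNe, hE.st_mul, hstc (st (c v)), hE.st_st, hcc]
      congr 1
      noncomm_ring
    have hsum : ∑ N ∈ evs d, tr ((st (c v) * M N) * k' * st (c (st (c v) * M N)) * st k') =
        (2 : ℂ) ^ (d - 1) * tr k' * tr (st (c v) * v * st k') := by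
      rw [Finset.sum_congr rfl hterm, ← map_sum]
      have e : ∑ N ∈ evs d, st (c v) * (M N * k' * st (M N)) * v * st k' =
          ((2 : ℂ) ^ (d - 1) * tr k') • (st (c v) * v * st k') := by
        rw [← Finset.sum_mul, ← Finset.sum_mul, ← Finset.mul_sum, (h2 M st tr hE hT).1 k']
        simp only [mul_smul_comm, smul_mul_assoc, mul_one]
      rw [e, map_smul, smul_eq_mul]
    rw [← hsum]
    refine pos_sum _ _ (fun N _ => ?_) ?_
    · by_cases h0 : st (c v) * M N = 0
      · left
        rw [h0]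
        simp
      · exact Or.inr (hpos _ h0)
    · by_contra hcon
      push Not at hcon
      have hall : ∀ N ∈ evs d, st (c v) * M N = 0 := by
        intro N hN
        by_contra h0
        exact hcon N hN (hpos _ h0)
      have h5 := h3 M st hE (st (c v)) 1 (fun K hK => by
        rw [hall K (Finset.mem_filter.2 ⟨Finset.mem_univ _, hK⟩), zero_mul])
      rcases h5 with h5 | h5
      · apply hv
        have h6 : c v = 0 := by
          rw [← hE.st_st (c v), h5, map_zero]
        rw [← hcc v, h6, hzero]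
      · exact hE.ne h5
  refine ⟨(starRingEnd ℂ) ((2 : ℂ) ^ (d - 1) * tr k'), fun x hx => ?_⟩
  have hkk : st k * st k' = 1 := by
    rw [← hE.st_mul, hk', st_one hE]
  have hv : x * st k ≠ 0 := by
    intro h0
    apply hx
    calc x = x * (st k * st k') := by rw [hkk, mul_one]
      _ = (x * st k) * st k' := by rw [mul_assoc]
      _ = 0 := by rw [h0, zero_mul]
  have h6 := key _ hv
  have e1 : st (c (x * st k)) * (x * st k) * st k' = c k * (st (c x) * x) := by
    rw [hA.mul, hE.st_mul, hA.st, hE.st_st]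
    calc c k * st (c x) * (x * st k) * st k' = c k * st (c x) * x * (st k * st k') := by
          noncomm_ring
      _ = c k * (st (c x) * x) := by rw [hkk, mul_one, mul_assoc]
  have e2 : tr (c k * (st (c x) * x)) = (starRingEnd ℂ) (tr (st x * c x * k)) := by
    rw [hT.2, ← htc, hA.mul, hA.mul, hcc, hA.st]
  rw [e1, e2] at h6
  have h7 := pos_conj h6
  rw [map_mul, Complex.conj_conj] at h7
  exact h7

end Pool.Agent.K1H75.SD
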